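import Mathlib

/-!
# Flowchart complexity measures are not finitely invariant

For every finite interpretation `F` and every bound `t` which does not tend to infinity, no member
`f` of the complexity class of `t` in the flowchart measure of `F` has all its finite variants in
this class. Hence no finite universal interpretation has a finitely invariant flowchart measure.

Reason: a computation of at most `c` steps of a flowchart over `F` is one of finitely many decision
trees.
-/

set_option autoImplicit false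

open Filter

namespace Pool.Agent.Results.MP_091941_lc.BoundedLiminf

/-- An interpretation: a set of functions and a set of predicates on the natural numbers, each of
some arity. -/
structure Interp where
  fn : Set (Σ k : ℕ, (Fin k → ℕ) → ℕ)
  pr : Set (Σ k : ℕ, (Fin k → ℕ) → Bool)

/-- All functions and predicates of the interpretation are recursive. -/
def Interp.Recursive (F : Interp) : Prop :=
  (∀ f ∈ F.fn, Computable fun v : List.Vector ℕ f.1 => f.2 v.get) ∧
    ∀ p ∈ F.pr, Computable fun v : List.Vector ℕ p.1 => p.2 v.get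

/-- The nodes of a flowchart with `n` nodes (besides the start node). Program variables are numbered
by the natural numbers. `op f a d u` stores the value of `f` at the variables `a` in the variable
`d` and goes on to `u`; `test p a u v` goes on to `u` if `p` is true of the variables `a`, otherwise
to `v`. -/
inductive Node (F : Interp) (n : ℕ)
  | op (f : F.fn) (a : Fin f.1.1 → ℕ) (d : ℕ) (u : Fin n)
  | test (p : F.pr) (a : Fin p.1.1 → ℕ) (u v : Fin n)
  | halt

/-- A flowchart: a finite number of nodes and the successor `init` of the start node. -/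
structure Flowchart (F : Interp) where
  n : ℕ
  node : Fin n → Node F n
  init : Fin n

/-- The computation from the node `u` with the contents `σ` of the variables: the output (the
contents of the variable `0`) if it halts after the execution of at most `s` nodes. -/
def run {F : Interp} (G : Flowchart F) : ℕ → Fin G.n → (ℕ → ℕ) → Option ℕ
  | 0, _, _ => none
  | s + 1, u, σ => match G.node u with
    | .op f a d v => run G s v (Function.update σ d (f.1.2 fun i => σ (a i)))
    | .test p a v w => if p.1.2 (fun i => σ (a i)) then run G s v σ else run G s w σ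
    | .halt => some (σ 0)

/-- The initial contents of the variables on input `x`: `x` in the variable `0`, and `0` in all the
other ones. -/
def inp (x : ℕ) : ℕ → ℕ := fun i => if i = 0 then x else 0

/-- The flowchart `G` computes the partial function `φ`. -/
def Computes {F : Interp} (G : Flowchart F) (φ : ℕ →. ℕ) : Prop :=
  ∀ x y, y ∈ φ x ↔ ∃ s, run G s G.init (inp x) = some y

/-- The computation of `G` on input `x` halts and its length is at most `m`; the length is the
number of executions of nodes, the start node included. -/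
def LengthLe {F : Interp} (G : Flowchart F) (x m : ℕ) : Prop :=
  ∃ s y, s + 1 ≤ m ∧ run G s G.init (inp x) = some y

/-- The interpretation is universal: every partial recursive function is computed by one of its
flowcharts. -/
def Universal (F : Interp) : Prop :=
  ∀ φ : ℕ →. ℕ, Nat.Partrec φ → ∃ G : Flowchart F, Computes G φ

/-- The complexity class of the bound `t` in the flowchart measure of `F`. -/
def Class (F : Interp) (t : ℕ → ℕ) : Set (ℕ → ℕ) :=
  {f | Computable f ∧ ∃ G : Flowchart F, Computes G (f : ℕ →. ℕ) ∧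
    ∀ᶠ x in atTop, LengthLe G x (t x)}

/-- The flowchart measure of `F` is finitely invariant. -/
def FinitelyInvariant (F : Interp) : Prop :=
  ∀ f g t : ℕ → ℕ, Computable f → Computable g → Computable t → f ∈ Class F t →
    (∀ᶠ x in atTop, f x = g x) → g ∈ Class F t

/-! ### decision trees -/

section trees

variable {F : Interp}

/-- terms of depth `d` in the input -/
def Tm (F : Interp) : ℕ → Type
  | 0 => Bool
  | d + 1 => Tm F d ⊕ (Σ f : F.fn, (Fin f.1.1 → Tm F d))

/-- value of a term -/
def Tm.val : (d : ℕ) → Tm F d → ℕ → ℕ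
  | 0, b, x => Bool.rec 0 x (show Bool from b)
  | d + 1, .inl τ, x => Tm.val d τ x
  | d + 1, .inr ⟨f, a⟩, x => f.1.2 fun i => Tm.val d (a i) x

/-- decision trees of depth `c` whose terms have depth `d` at the root -/
def Tr (F : Interp) : ℕ → ℕ → Type
  | 0, _ => Unit
  | c + 1, d => Tm F d ⊕ (Tr F c (d + 1)) ⊕ ((Σ p : F.pr, (Fin p.1.1 → Tm F d)) × Tr F c d × Tr F c d)

/-- value of a tree -/
def Tr.val : (c d : ℕ) → Tr F c d → ℕ → Option ℕ
  | 0, _, _, _ => none
  | _ + 1, d, .inl τ, x => some (Tm.val d τ x)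
  | c + 1, d, .inr (.inl T), x => Tr.val c (d + 1) T x
  | c + 1, d, .inr (.inr (p, T, T')), x =>
      if p.1.1.2 (fun i => Tm.val d (p.2 i) x) then Tr.val c d T x else Tr.val c d T' x

instance finTm [Finite F.fn] : (d : ℕ) → Finite (Tm F d)
  | 0 => inferInstanceAs (Finite Bool)
  | d + 1 => by
    have := finTm d
    exact inferInstanceAs (Finite (Tm F d ⊕ (Σ f : F.fn, (Fin f.1.1 → Tm F d))))

instance finTr [Finite F.fn] [Finite F.pr] : (c d : ℕ) → Finite (Tr F c d)
  | 0, _ => inferInstanceAs (Finite Unit)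
  | c + 1, d => by
    have h1 := finTr c (d + 1)
    have h2 := finTr c d
    exact inferInstanceAs (Finite (Tm F d ⊕ (Tr F c (d + 1)) ⊕
      ((Σ p : F.pr, (Fin p.1.1 → Tm F d)) × Tr F c d × Tr F c d)))

theorem val_update {d : ℕ} (σ : ℕ → Tm F d) (f : F.fn) (a : Fin f.1.1 → ℕ) (e i x : ℕ) :
    Tm.val (d + 1) (Function.update (fun i => (Sum.inl (σ i) : Tm F (d + 1))) e
      (Sum.inr ⟨f, fun i => σ (a i)⟩ : Tm F (d + 1)) i) x =
      Function.update (fun i => Tm.val d (σ i) x) e (f.1.2 fun i => Tm.val d (σ (a i)) x) i := by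
  by_cases hi : i = e
  · subst hi
    rw [Function.update_self, Function.update_self]
    rfl
  · rw [Function.update_of_ne hi, Function.update_of_ne hi]
    rfl

/-- every computation of at most `c` steps is a tree -/
theorem exists_tree (G : Flowchart F) : ∀ (c d : ℕ) (u : Fin G.n) (σ : ℕ → Tm F d),
    ∃ T : Tr F c d, ∀ x, run G c u (fun i => Tm.val d (σ i) x) = Tr.val c d T x := by
  intro c
  induction c with
  | zero => exact fun d u σ => ⟨(), fun x => rfl⟩
  | succ c ih =>
    intro d u σ
    rcases hu : G.node u with ⟨f, a, e, v⟩ | ⟨p, a, v, w⟩ | _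
    · obtain ⟨T, hT⟩ := ih (d + 1) v
        (Function.update (fun i => (Sum.inl (σ i) : Tm F (d + 1))) e
          (Sum.inr ⟨f, fun i => σ (a i)⟩ : Tm F (d + 1)))
      refine ⟨.inr (.inl T), fun x => ?_⟩
      rw [run, hu]
      change run G c v _ = Tr.val c (d + 1) T x
      rw [← hT x]
      congr 1
      funext i
      exact (val_update σ f a e i x).symm
    · obtain ⟨T, hT⟩ := ih d v σ
      obtain ⟨T', hT'⟩ := ih d w σ
      refine ⟨.inr (.inr (⟨p, fun i => σ (a i)⟩, T, T')), fun x => ?_⟩
      rw [run, hu]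
      change (if p.1.2 (fun i => Tm.val d (σ (a i)) x) then _ else _) =
        (if p.1.2 (fun i => Tm.val d (σ (a i)) x) then _ else _)
      rw [hT x, hT' x]
    · refine ⟨.inl (σ 0), fun x => ?_⟩
      rw [run, hu]
      rfl

end trees

theorem run_mono {F : Interp} (G : Flowchart F) : ∀ (s : ℕ) (u : Fin G.n) (σ : ℕ → ℕ) (y : ℕ),
    run G s u σ = some y → run G (s + 1) u σ = some y := by
  intro s
  induction s with
  | zero => intro u σ y h; simp [run] at h
  | succ s ih =>
    intro u σ y h
    rw [run] at h ⊢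
    rcases hu : G.node u with ⟨f, a, e, v⟩ | ⟨p, a, v, w⟩ | _
    · rw [hu] at h
      exact ih _ _ _ h
    · rw [hu] at h
      dsimp only at h ⊢
      split_ifs at h ⊢ with hp
      · exact ih _ _ _ h
      · exact ih _ _ _ h
    · rw [hu] at h
      exact h

theorem run_le {F : Interp} (G : Flowchart F) {s s' : ℕ} (hs : s ≤ s') {u : Fin G.n} {σ : ℕ → ℕ}
    {y : ℕ} (h : run G s u σ = some y) : run G s' u σ = some y := by
  induction hs with
  | refl => exact h
  | step _ ih => exact run_mono G _ _ _ _ ih

/-- the main point -/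
theorem no_variant (F : Interp) (h1 : F.fn.Finite) (h2 : F.pr.Finite) (t : ℕ → ℕ)
    (ht : ¬ Tendsto t atTop atTop) (f : ℕ → ℕ) (hf : Computable f) :
    ∃ g : ℕ → ℕ, Computable g ∧ (∀ᶠ x in atTop, g x = f x) ∧ g ∉ Class F t := by
  have := h1.to_subtype
  have := h2.to_subtype
  -- a bound attained infinitely often
  obtain ⟨c, hc⟩ : ∃ c, ∃ᶠ x in atTop, t x ≤ c := by
    by_contra hcon
    push Not at hcon
    apply ht
    rw [tendsto_atTop]
    intro b
    filter_upwards [hcon b] with x hx
    omega
  -- the exceptional points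
  have hN : ∀ T : Tr F c 0, (∀ᶠ x in atTop, t x ≤ c → (Tr.val c 0 T x).isSome) →
      ∃ n, ∀ x, n ≤ x → t x ≤ c → (Tr.val c 0 T x).isSome := fun T hT => eventually_atTop.1 hT
  choose! n hn using hN
  obtain ⟨m, hm⟩ : ∃ m, ∀ T : Tr F c 0, n T ≤ m := by
    obtain ⟨m, hm⟩ := (Set.finite_range n).bddAbove
    exact ⟨m, fun T => hm ⟨T, rfl⟩⟩
  obtain ⟨x₁, hx₁, hx₁'⟩ := (frequently_atTop.1 hc) m
  -- the values to be avoided
  obtain ⟨v, hv⟩ : ∃ v, ∀ T : Tr F c 0, Tr.val c 0 T x₁ ≠ some v := by
    obtain ⟨b, hb⟩ := (Set.finite_range fun T : Tr F c 0 => (Tr.val c 0 T x₁).getD 0).bddAbove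
    refine ⟨b + 1, fun T hT => ?_⟩
    have h3 : (Tr.val c 0 T x₁).getD 0 ≤ b := hb ⟨T, rfl⟩
    rw [hT] at h3
    simp at h3
  refine ⟨fun x => if x = x₁ then v else f x, ?_, ?_, ?_⟩
  · have h7 : Computable fun x : ℕ => decide (x = x₁) :=
      (Primrec.eq.comp Primrec.id (Primrec.const x₁)).decide.to_comp
    refine (Computable.cond h7 (Computable.const v) hf).of_eq fun x => ?_
    by_cases hx : x = x₁ <;> simp [hx]
  · filter_upwards [eventually_gt_atTop x₁] with x hx
    simp [hx.ne']
  · rintro ⟨-, G, hG, hl⟩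
    obtain ⟨T, hT⟩ := exists_tree G c 0 G.init (fun i => (decide (i = 0) : Bool))
    have hT' : ∀ x, run G c G.init (inp x) = Tr.val c 0 T x := by
      intro x
      rw [← hT x]
      congr 1
      funext i
      by_cases hi : i = 0
      · subst hi
        rfl
      · simp [inp, Tm.val, hi]
    have h4 : ∀ᶠ x in atTop, t x ≤ c → (Tr.val c 0 T x).isSome := by
      filter_upwards [hl] with x hx htx
      obtain ⟨s, y, hs, hy⟩ := hx
      rw [← hT' x, run_le G (by omega : s ≤ c) hy]
      rfl
    have h5 := hn T h4 x₁ ((hm T).trans hx₁) hx₁'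
    obtain ⟨y, hy⟩ := Option.isSome_iff_exists.1 h5
    have h6 : y ∈ ((fun x => if x = x₁ then v else f x : ℕ → ℕ) : ℕ →. ℕ) x₁ :=
      (hG x₁ y).2 ⟨c, by rw [hT' x₁, hy]⟩
    simp at h6
    exact hv T (by rw [hy, h6])

/-! ### the identity -/

/-- the flowchart which halts at once -/
def idle (F : Interp) : Flowchart F := ⟨1, fun _ => .halt, 0⟩

theorem id_mem (F : Interp) : (fun x => x) ∈ Class F (fun _ => 2) := by
  refine ⟨Computable.id, idle F, ?_, Eventually.of_forall fun x => ⟨1, x, le_rfl, rfl⟩⟩
  intro x y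
  constructor
  · intro h
    simp only [PFun.coe_val, Part.mem_some_iff] at h
    subst h
    exact ⟨1, rfl⟩
  · rintro ⟨s, hs⟩
    cases s with
    | zero => simp [run] at hs
    | succ s =>
      have h1 : run (idle F) (s + 1) (idle F).init (inp x) = some x := rfl
      rw [h1] at hs
      simp only [PFun.coe_val, Part.mem_some_iff]
      exact (Option.some.inj hs).symm

/-! ### a finite universal interpretation -/

open Nat.Partrec (Code)

/-- successor -/
def fS : Σ k : ℕ, (Fin k → ℕ) → ℕ := ⟨1, fun v => v 0 + 1⟩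

/-- the result of `k` stages of the computation of a code -/
def fU : Σ k : ℕ, (Fin k → ℕ) → ℕ :=
  ⟨3, fun v => (Code.evaln (v 2) (Denumerable.ofNat Code (v 0)) (v 1)).getD 0⟩

/-- the computation of a code has ended after `k` stages -/
def pT : Σ k : ℕ, (Fin k → ℕ) → Bool :=
  ⟨3, fun v => (Code.evaln (v 2) (Denumerable.ofNat Code (v 0)) (v 1)).isSome⟩

/-- a finite interpretation -/
def F₀ : Interp := ⟨{fS, fU}, {pT}⟩

theorem recursive_F₀ : F₀.Recursive := by
  have hg : ∀ {n : ℕ} (i : Fin n), Primrec fun v : List.Vector ℕ n => v.get i := fun i =>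
    Primrec.vector_get.comp Primrec.id (Primrec.const i)
  have he : Primrec fun v : List.Vector ℕ 3 =>
      Code.evaln (v.get 2) (Denumerable.ofNat Code (v.get 0)) (v.get 1) :=
    Code.primrec_evaln.comp (Primrec.pair (Primrec.pair (hg 2)
      ((Primrec.ofNat Code).comp (hg 0))) (hg 1))
  constructor
  · rintro f (rfl | rfl)
    · exact (Primrec.succ.comp (hg (n := 1) 0)).to_comp
    · exact (Primrec.option_getD.comp he (Primrec.const 0)).to_comp
  · rintro p rfl
    exact (Primrec.option_isSome.comp he).to_comp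

/-- the halting computations -/
def Ev {F : Interp} (G : Flowchart F) (u : Fin G.n) (σ : ℕ → ℕ) (y : ℕ) : Prop :=
  ∃ s, run G s u σ = some y

theorem ev_op {F : Interp} {G : Flowchart F} {u : Fin G.n} {f : F.fn} {a : Fin f.1.1 → ℕ} {d : ℕ}
    {v : Fin G.n} (h : G.node u = .op f a d v) (σ : ℕ → ℕ) (y : ℕ) :
    Ev G u σ y ↔ Ev G v (Function.update σ d (f.1.2 fun i => σ (a i))) y := by
  constructor
  · rintro ⟨s, hs⟩
    cases s with
    | zero => simp [run] at hs
    | succ s =>
      rw [run, h] at hs
      exact ⟨s, hs⟩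
  · rintro ⟨s, hs⟩
    refine ⟨s + 1, ?_⟩
    rw [run, h]
    exact hs

theorem ev_test {F : Interp} {G : Flowchart F} {u : Fin G.n} {p : F.pr} {a : Fin p.1.1 → ℕ}
    {v w : Fin G.n} (h : G.node u = .test p a v w) (σ : ℕ → ℕ) (y : ℕ) :
    Ev G u σ y ↔ Ev G (if p.1.2 (fun i => σ (a i)) then v else w) σ y := by
  constructor
  · rintro ⟨s, hs⟩
    cases s with
    | zero => simp [run] at hs
    | succ s =>
      rw [run, h] at hs
      refine ⟨s, ?_⟩
      dsimp only at hs
      split_ifs at hs ⊢ <;> exact hs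
  · rintro ⟨s, hs⟩
    refine ⟨s + 1, ?_⟩
    rw [run, h]
    dsimp only
    split_ifs at hs ⊢ <;> exact hs

theorem ev_halt {F : Interp} {G : Flowchart F} {u : Fin G.n} (h : G.node u = .halt) (σ : ℕ → ℕ)
    (y : ℕ) : Ev G u σ y ↔ y = σ 0 := by
  constructor
  · rintro ⟨s, hs⟩
    cases s with
    | zero => simp [run] at hs
    | succ s =>
      rw [run, h] at hs
      exact (Option.some.inj hs).symm
  · rintro rfl
    exact ⟨1, by rw [run, h]⟩

/-- the nodes of the flowchart of the code `e` -/
def nd (e : ℕ) (u : Fin (e + 4)) : Node F₀ (e + 4) :=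
  if h : u.1 < e then
    .op (⟨fS, Or.inl rfl⟩ : F₀.fn) (fun _ => 1) 1 ⟨u.1 + 1, by omega⟩
  else if u.1 = e then
    .test (⟨pT, rfl⟩ : F₀.pr) (![1, 0, 2] : Fin 3 → ℕ) ⟨e + 1, by omega⟩ ⟨e + 2, by omega⟩
  else if u.1 = e + 1 then
    .op (⟨fU, Or.inr rfl⟩ : F₀.fn) (![1, 0, 2] : Fin 3 → ℕ) 0 ⟨e + 3, by omega⟩
  else if u.1 = e + 2 then
    .op (⟨fS, Or.inl rfl⟩ : F₀.fn) (fun _ => 2) 2 ⟨e, by omega⟩
  else .halt

/-- the flowchart of the code `e` -/
def gc (e : ℕ) : Flowchart F₀ := ⟨e + 4, nd e, ⟨0, by omega⟩⟩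

/-- contents of the variables -/
def st (x j k : ℕ) : ℕ → ℕ := fun i => if i = 0 then x else if i = 1 then j else if i = 2 then k else 0

theorem upd1 (x j k v : ℕ) : Function.update (st x j k) 1 v = st x v k := by
  funext i
  by_cases h : i = 1
  · subst h; simp [st]
  · rw [Function.update_of_ne h]; simp [st, h]

theorem upd2 (x j k v : ℕ) : Function.update (st x j k) 2 v = st x j v := by
  funext i
  by_cases h : i = 2
  · subst h; simp [st]
  · rw [Function.update_of_ne h]; simp [st, h]

theorem ev_count (e x y : ℕ) : ∀ (i j : ℕ) (h : j + i = e),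
    Ev (gc e) ⟨j, by show j < e + 4; omega⟩ (st x j 0) y ↔
      Ev (gc e) ⟨e, by show e < e + 4; omega⟩ (st x e 0) y := by
  intro i
  induction i with
  | zero =>
    intro j h
    have : j = e := by omega
    subst this
    rfl
  | succ i ih =>
    intro j h
    have h1 : (gc e).node ⟨j, by show j < e + 4; omega⟩ =
        .op (⟨fS, Or.inl rfl⟩ : F₀.fn) (fun _ => 1) 1 ⟨j + 1, by show j + 1 < e + 4; omega⟩ := by
      show nd e ⟨j, _⟩ = _
      rw [nd, dif_pos (by show j < e; omega)]
      rfl
    rw [ev_op h1, upd1]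
    exact ih (j + 1) (by omega)

theorem node_e (e : ℕ) : (gc e).node ⟨e, by show e < e + 4; omega⟩ =
    .test (⟨pT, rfl⟩ : F₀.pr) (![1, 0, 2] : Fin 3 → ℕ) ⟨e + 1, by show e + 1 < e + 4; omega⟩
      ⟨e + 2, by show e + 2 < e + 4; omega⟩ := by
  show nd e ⟨e, _⟩ = _
  rw [nd, dif_neg (by simp), if_pos rfl]
  rfl

theorem node_e1 (e : ℕ) : (gc e).node ⟨e + 1, by show e + 1 < e + 4; omega⟩ =
    .op (⟨fU, Or.inr rfl⟩ : F₀.fn) (![1, 0, 2] : Fin 3 → ℕ) 0
      ⟨e + 3, by show e + 3 < e + 4; omega⟩ := by
  show nd e ⟨e + 1, _⟩ = _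
  rw [nd, dif_neg (by simp), if_neg (by simp), if_pos rfl]
  rfl

theorem node_e2 (e : ℕ) : (gc e).node ⟨e + 2, by show e + 2 < e + 4; omega⟩ =
    .op (⟨fS, Or.inl rfl⟩ : F₀.fn) (fun _ => 2) 2 ⟨e, by show e < e + 4; omega⟩ := by
  show nd e ⟨e + 2, _⟩ = _
  rw [nd, dif_neg (by simp), if_neg (by simp), if_neg (by simp), if_pos rfl]
  rfl

theorem node_e3 (e : ℕ) : (gc e).node ⟨e + 3, by show e + 3 < e + 4; omega⟩ = .halt := by
  show nd e ⟨e + 3, _⟩ = _
  rw [nd, dif_neg (by simp), if_neg (by simp), if_neg (by simp), if_neg (by simp)]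
  rfl

/-- `k` stages of the computation of the code `e` on `x` -/
def evk (e x k : ℕ) : Option ℕ := Code.evaln k (Denumerable.ofNat Code e) x

theorem test_eq (e x k : ℕ) :
    pT.2 (fun i : Fin 3 => st x e k ((![1, 0, 2] : Fin 3 → ℕ) i)) = (evk e x k).isSome := rfl

theorem ev_none (e x k y : ℕ) (h : evk e x k = none) :
    Ev (gc e) ⟨e, by show e < e + 4; omega⟩ (st x e k) y ↔
      Ev (gc e) ⟨e, by show e < e + 4; omega⟩ (st x e (k + 1)) y := by
  rw [ev_test (node_e e)]
  have h1 : pT.2 (fun i : Fin 3 => st x e k ((![1, 0, 2] : Fin 3 → ℕ) i)) = false := by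
    rw [test_eq, h]; rfl
  have h2 : (if pT.2 (fun i : Fin 3 => st x e k ((![1, 0, 2] : Fin 3 → ℕ) i)) = true then
      (⟨e + 1, by show e + 1 < e + 4; omega⟩ : Fin (gc e).n)
      else ⟨e + 2, by show e + 2 < e + 4; omega⟩) = ⟨e + 2, by show e + 2 < e + 4; omega⟩ := by
    rw [h1]; simp
  refine (iff_of_eq (congrArg (fun u => Ev (gc e) u (st x e k) y) h2)).trans ?_
  rw [ev_op (node_e2 e), upd2]
  rfl

theorem ev_some (e x k y z : ℕ) (h : evk e x k = some z) :
    Ev (gc e) ⟨e, by show e < e + 4; omega⟩ (st x e k) y ↔ y = z := by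
  rw [ev_test (node_e e)]
  have h1 : pT.2 (fun i : Fin 3 => st x e k ((![1, 0, 2] : Fin 3 → ℕ) i)) = true := by
    rw [test_eq, h]; rfl
  have h2 : (if pT.2 (fun i : Fin 3 => st x e k ((![1, 0, 2] : Fin 3 → ℕ) i)) = true then
      (⟨e + 1, by show e + 1 < e + 4; omega⟩ : Fin (gc e).n)
      else ⟨e + 2, by show e + 2 < e + 4; omega⟩) = ⟨e + 1, by show e + 1 < e + 4; omega⟩ := by
    rw [h1]; simp
  refine (iff_of_eq (congrArg (fun u => Ev (gc e) u (st x e k) y) h2)).trans ?_
  rw [ev_op (node_e1 e), ev_halt (node_e3 e), Function.update_self]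
  have h3 : (fU.2 fun i : Fin 3 => st x e k ((![1, 0, 2] : Fin 3 → ℕ) i)) = (evk e x k).getD 0 :=
    rfl
  have h4 : (fU.2 fun i : Fin 3 => st x e k ((![1, 0, 2] : Fin 3 → ℕ) i)) = z := by
    rw [h3, h]; rfl
  exact ⟨fun hy => hy.trans h4, fun hy => hy.trans h4.symm⟩

theorem universal_F₀ : Universal F₀ := by
  intro φ hφ
  obtain ⟨c, hc⟩ := Code.exists_code.1 hφ
  obtain ⟨e, he⟩ : ∃ e : ℕ, Denumerable.ofNat Code e = c :=
    ⟨Encodable.encode c, Denumerable.ofNat_encode c⟩
  refine ⟨gc e, fun x y => ?_⟩
  have hst : inp x = st x 0 0 := by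
    funext i
    by_cases h : i = 0
    · subst h; rfl
    · simp [inp, st, h]
  have h0 : (∃ s, run (gc e) s (gc e).init (inp x) = some y) ↔
      Ev (gc e) ⟨e, by show e < e + 4; omega⟩ (st x e 0) y := by
    rw [hst]
    exact ev_count e x y e 0 (by omega)
  rw [h0, ← hc]
  by_cases hk : ∃ k, evk e x k ≠ none
  · classical
    obtain ⟨z, hz⟩ := Option.ne_none_iff_exists'.1 (Nat.find_spec hk)
    have h1 : ∀ k ≤ Nat.find hk, Ev (gc e) ⟨e, by show e < e + 4; omega⟩ (st x e 0) y ↔
        Ev (gc e) ⟨e, by show e < e + 4; omega⟩ (st x e k) y := by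
      intro k
      induction k with
      | zero => exact fun _ => Iff.rfl
      | succ k ih =>
        intro hk'
        rw [ih (by omega)]
        exact ev_none e x k y (not_not.1 (Nat.find_min hk (by omega)))
    rw [h1 _ le_rfl, ev_some e x _ y z hz]
    have h2 : z ∈ c.eval x := by
      rw [← he]
      exact Code.evaln_sound (by
        have : evk e x (Nat.find hk) = some z := hz
        exact this)
    exact ⟨fun hy => Part.mem_unique hy h2, fun hy => hy ▸ h2⟩
  · push Not at hk
    constructor
    · intro hy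
      exfalso
      obtain ⟨k, hk'⟩ := Code.evaln_complete.1 hy
      have h3 := hk k
      rw [evk, he] at h3
      rw [h3] at hk'
      simp at hk'
    · rintro ⟨s, hs⟩
      exfalso
      have h4 : ∀ s k, run (gc e) s ⟨e, by show e < e + 4; omega⟩ (st x e k) ≠ some y := by
        intro s
        induction s using Nat.strong_induction_on with
        | _ s ih =>
          intro k hrun
          match s, ih, hrun with
          | 0, _, hrun => simp [run] at hrun
          | 1, _, hrun =>
            rw [run, node_e e] at hrun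
            dsimp only at hrun
            split_ifs at hrun <;> simp [run] at hrun
          | s + 2, ih, hrun =>
            have h5 : pT.2 (fun i : Fin 3 => st x e k ((![1, 0, 2] : Fin 3 → ℕ) i)) = false := by
              rw [test_eq, hk k]; rfl
            rw [run, node_e e] at hrun
            dsimp only at hrun
            have h6 : ¬ (pT.2 (fun i : Fin 3 => st x e k ((![1, 0, 2] : Fin 3 → ℕ) i)) = true) := by
              rw [h5]; simp
            split_ifs at hrun with hcond
            · exact h6 hcond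
            · rw [run, node_e2 e] at hrun
              dsimp only at hrun
              rw [upd2] at hrun
              exact ih s (by omega) (k + 1) hrun
      exact h4 s 0 hs

/-- **Flowchart measures are not finitely invariant.** (1) There is a finite universal
interpretation, of recursive functions and predicates. (2) Let `F` be a finite interpretation and
let `t` be a bound which does not tend to infinity. Every recursive function `f` has a recursive
finite variant which does not belong to the complexity class of `t`. (3) No finite interpretation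
has a finitely invariant flowchart measure; (1) and (3) disprove the statement of Q1. -/
theorem result :
    (∃ F : Interp, F.Recursive ∧ Universal F ∧ F.fn.Finite ∧ F.pr.Finite) ∧
    (∀ F : Interp, F.fn.Finite → F.pr.Finite → ∀ t : ℕ → ℕ, ¬ Tendsto t atTop atTop →
      ∀ f : ℕ → ℕ, Computable f →
        ∃ g : ℕ → ℕ, Computable g ∧ (∀ᶠ x in atTop, g x = f x) ∧ g ∉ Class F t) ∧
    (∀ F : Interp, F.fn.Finite → F.pr.Finite → ¬ FinitelyInvariant F) := by
  refine ⟨⟨F₀, recursive_F₀, universal_F₀, ?_, ?_⟩, no_variant, ?_⟩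
  · exact (Set.finite_singleton _).insert _
  · exact Set.finite_singleton _
  · intro F h1 h2 hF
    have ht : ¬ Tendsto (fun _ : ℕ => (2 : ℕ)) atTop atTop :=
      not_tendsto_const_atTop 2 atTop
    obtain ⟨g, hg, hgf, hgn⟩ := no_variant F h1 h2 (fun _ => 2) ht (fun x => x) Computable.id
    exact hgn (hF (fun x => x) g (fun _ => 2) Computable.id hg (Computable.const 2) (id_mem F)
      (hgf.mono fun x hx => hx.symm))

end Pool.Agent.Results.MP_091941_lc.BoundedLiminf
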